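import Mathlib
import Pool.Agent.H88.Tq3
import Pool.Agent.H88.FpDefs
import Pool.Agent.H88.FpDefs3

open Pool.Agent.H88.Fp Pool.Agent.H88.Pex

theorem Pool.Agent.Results.MP_4b0054_an.No.result (𝕜 : Type) [RCLike 𝕜] (p : ℝ) (hp : 0 < p)
    (hp1 : p < 1) :
    ∃ (X : Type) (_ : AddCommGroup X) (_ : Module 𝕜 X) (ν : X → ℝ), IsPBanach 𝕜 p ν ∧
      SchurP 𝕜 p ν ∧ (∃ (Y : Type) (_ : NormedAddCommGroup Y) (_ : NormedSpace 𝕜 Y)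
        (J : X →ₗ[𝕜] Y), IsEnvelope 𝕜 ν J) ∧
      ∀ (Y : Type) [NormedAddCommGroup Y] [NormedSpace 𝕜 Y] (J : X →ₗ[𝕜] Y),
        IsEnvelope 𝕜 ν J → ¬Schur 𝕜 Y :=
  env_not_schur hp hp1
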